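import Pool.Agent.Lib_MP_1d723d_an.Main

/-!
# MP_1d723d_an: the inequality `c_n ‖A‖_{H⁴} ≤ ‖A‖_{H¹_*}` is false

There is a real `7 × 7` matrix `A` with `‖A‖_{H¹_*} < c₇ ‖A‖_{H⁴}`. Hence it is not true that
`c_n ‖A‖_{H⁴} ≤ ‖A‖_{H¹_*} ≤ ‖A‖_{H⁴}` for all `n > 2` and all real `n × n` matrices `A`.

The matrix is `A = 7 E[v(x) xᵀ]` with `v(x) = Bx/|Bx|` and `B = diag(1, β, …, β)`, `β = 64/1025`;
`⟨A, H⟩ = E ⟨v(x), Hx⟩ ≤ ‖H‖_{H¹}`, so that `‖A‖_{H¹_*} ≤ 1`, while `c₇ ‖A‖_{H⁴} > 1`.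
-/

namespace Pool.Agent.Results.MP_1d723d_an.LeftInequalityFails

open MP1d723d

/-- The left-hand inequality `c_n ‖A‖_{H⁴} ≤ ‖A‖_{H¹_*}` fails for some real `7 × 7` matrix `A`
(for which the supremum defining the dual norm is the supremum of a bounded set). -/
theorem result :
    ∃ A : Matrix (Fin 7) (Fin 7) ℝ,
      BddAbove {t : ℝ | ∃ B : Matrix (Fin 7) (Fin 7) ℝ, Hnorm 1 B ≤ 1 ∧ t = inn A B} ∧
      dualNorm A < c 7 * Hnorm 4 A :=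
  ⟨Actr, bdd, lt_of_le_of_lt dual_le big⟩

/-- Consequence: the two-sided inequality of the problem does not hold for all `n > 2` and all
real `n × n` matrices. -/
theorem not_two_sided :
    ¬ ∀ n : ℕ, 2 < n → ∀ A : Matrix (Fin n) (Fin n) ℝ,
      c n * Hnorm 4 A ≤ dualNorm A ∧ dualNorm A ≤ Hnorm 4 A := by
  intro hall
  obtain ⟨A, _, hA⟩ := result
  exact absurd (hall 7 (by norm_num) A).1 (not_le.mpr hA)

end Pool.Agent.Results.MP_1d723d_an.LeftInequalityFails
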